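import Mathlib
import Pool.Agent.H934R3.NP.Stmts

/-! Task J2 of the NP-project of helper934. -/

set_option autoImplicit false

open MeasureTheory Set Filter Topology
open scoped ENNReal NNReal

namespace Pool.Agent.H934R3.NP.J2

open Pool.Agent.H934R3.NP

/-- the measure `2 π ρ dρ` on `[0, 2r]` -/
noncomputable def lam (r : ℝ) : Measure ℝ :=
  (volume.restrict (Icc 0 (2 * r))).withDensity (fun ρ => ENNReal.ofReal (2 * Real.pi * ρ))

theorem lam_Iic (r : ℝ) (a : ℝ) (ha : 0 ≤ a) (ha2 : a ≤ 2 * r) :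
    lam r (Iic a) = ENNReal.ofReal (Real.pi * a ^ 2) := by
  unfold lam
  rw [withDensity_apply _ measurableSet_Iic, Measure.restrict_restrict measurableSet_Iic]
  have e : Iic a ∩ Icc 0 (2 * r) = Icc 0 a := by
    ext t
    simp only [mem_inter_iff, mem_Iic, mem_Icc]
    constructor
    · rintro ⟨h1, h2, h3⟩
      exact ⟨h2, h1⟩
    · rintro ⟨h1, h2⟩
      exact ⟨h2, h1, h2.trans ha2⟩
  rw [e, ← ofReal_integral_eq_lintegral_ofReal]
  · congr 1
    rw [integral_Icc_eq_integral_Ioc, ← intervalIntegral.integral_of_le ha]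
    rw [intervalIntegral.integral_const_mul, integral_id]
    ring
  · exact (Continuous.integrableOn_Icc (by fun_prop))
  · filter_upwards [ae_restrict_mem measurableSet_Icc] with t ht
    have := Real.pi_pos
    have h0 : 0 ≤ t := ht.1
    simp only [Pi.zero_apply]
    positivity

theorem lam_neg (r : ℝ) (a : ℝ) (ha : a < 0) : lam r (Iic a) = 0 := by
  unfold lam
  rw [withDensity_apply _ measurableSet_Iic, Measure.restrict_restrict measurableSet_Iic]
  have e : Iic a ∩ Icc 0 (2 * r) = ∅ := by
    ext t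
    simp only [mem_inter_iff, mem_Iic, mem_Icc, mem_empty_iff_false, iff_false]
    rintro ⟨h1, h2, h3⟩
    linarith
  rw [e]
  simp

theorem lam_big (r : ℝ) (hr : 0 < r) (a : ℝ) (ha : 2 * r ≤ a) :
    lam r (Iic a) = ENNReal.ofReal (Real.pi * (2 * r) ^ 2) := by
  rw [← lam_Iic r (2 * r) (by positivity) le_rfl]
  unfold lam
  rw [withDensity_apply _ measurableSet_Iic, Measure.restrict_restrict measurableSet_Iic,
    withDensity_apply _ measurableSet_Iic, Measure.restrict_restrict measurableSet_Iic]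
  congr 2
  ext t
  simp only [mem_inter_iff, mem_Iic, mem_Icc]
  constructor
  · rintro ⟨h1, h2, h3⟩
    exact ⟨h3, h2, h3⟩
  · rintro ⟨h1, h2, h3⟩
    exact ⟨h3.trans ha, h2, h3⟩

theorem nu_Iic (hJ : TaskJ1) (g : E → ℝ) (_hg : Surf g) (c : E) (r : ℝ) (hr : 0 < r)
    (hS : Sg g = Metric.sphere c r) (x : E) (hx : x ∈ Sg g) (a : ℝ) (ha : 0 ≤ a)
    (ha2 : a ≤ 2 * r) :
    ((sig g).map (fun y => ‖x - y‖)) (Iic a) = ENNReal.ofReal (Real.pi * a ^ 2) := by
  have hm : Measurable (fun y : E => ‖x - y‖) := by fun_prop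
  have hS' : {x : E | g x = 0} = Metric.sphere c r := hS
  rw [Measure.map_apply hm measurableSet_Iic]
  unfold sig
  rw [Measure.smul_apply, Measure.restrict_apply (hm measurableSet_Iic), smul_eq_mul,
    ← hJ c r hr x (hS ▸ hx) a ha ha2, hS']
  congr 2
  ext y
  simp only [mem_inter_iff, mem_preimage, mem_Iic, Metric.mem_closedBall, dist_eq_norm]
  rw [norm_sub_rev x y]
  tauto

theorem nu_big (hJ : TaskJ1) (g : E → ℝ) (hg : Surf g) (c : E) (r : ℝ) (hr : 0 < r)
    (hS : Sg g = Metric.sphere c r) (x : E) (hx : x ∈ Sg g) (a : ℝ) (ha : 2 * r ≤ a) :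
    ((sig g).map (fun y => ‖x - y‖)) (Iic a) = ENNReal.ofReal (Real.pi * (2 * r) ^ 2) := by
  have hm : Measurable (fun y : E => ‖x - y‖) := by fun_prop
  have hS' : {x : E | g x = 0} = Metric.sphere c r := hS
  rw [← nu_Iic hJ g hg c r hr hS x hx (2 * r) (by positivity) le_rfl]
  rw [Measure.map_apply hm measurableSet_Iic, Measure.map_apply hm measurableSet_Iic]
  unfold sig
  rw [Measure.smul_apply, Measure.restrict_apply (hm measurableSet_Iic), smul_eq_mul,
    Measure.smul_apply, Measure.restrict_apply (hm measurableSet_Iic), smul_eq_mul, hS']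
  congr 2
  ext y
  simp only [mem_inter_iff, mem_preimage, mem_Iic, mem_sphere_iff_norm]
  have hxc : ‖x - c‖ = r := by
    have : x ∈ Metric.sphere c r := hS ▸ hx
    exact mem_sphere_iff_norm.mp this
  constructor
  · rintro ⟨h1, h2⟩
    refine ⟨?_, h2⟩
    calc ‖x - y‖ = ‖(x - c) - (y - c)‖ := by congr 1; abel
      _ ≤ ‖x - c‖ + ‖y - c‖ := norm_sub_le _ _
      _ = 2 * r := by rw [hxc, h2]; ring
  · rintro ⟨h1, h2⟩
    exact ⟨h1.trans ha, h2⟩

theorem nu_neg (g : E → ℝ) (x : E) (a : ℝ) (ha : a < 0) :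
    ((sig g).map (fun y => ‖x - y‖)) (Iic a) = 0 := by
  have hm : Measurable (fun y : E => ‖x - y‖) := by fun_prop
  rw [Measure.map_apply hm measurableSet_Iic]
  have : (fun y : E => ‖x - y‖) ⁻¹' Iic a = ∅ := by
    ext y
    simp only [mem_preimage, mem_Iic, mem_empty_iff_false, iff_false, not_le]
    exact lt_of_lt_of_le ha (norm_nonneg _)
  rw [this]
  simp

theorem nu_eq (hJ : TaskJ1) (g : E → ℝ) (hg : Surf g) (c : E) (r : ℝ) (hr : 0 < r)
    (hS : Sg g = Metric.sphere c r) (x : E) (hx : x ∈ Sg g) :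
    (sig g).map (fun y => ‖x - y‖) = lam r := by
  have hm : Measurable (fun y : E => ‖x - y‖) := by fun_prop
  have hfin : IsFiniteMeasure ((sig g).map (fun y => ‖x - y‖)) := by
    refine ⟨?_⟩
    have h1 : (⋃ n : ℕ, Iic (n : ℝ)) = (univ : Set ℝ) := by
      ext t
      simp only [mem_iUnion, mem_Iic, mem_univ, iff_true]
      exact exists_nat_ge t
    rw [← h1]
    have hmono : Monotone (fun n : ℕ => Iic (n : ℝ)) := fun m n h =>
      Iic_subset_Iic.mpr (by exact_mod_cast h)
    rw [hmono.measure_iUnion]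
    refine lt_of_le_of_lt (iSup_le (fun n => ?_)) ENNReal.ofReal_lt_top (a := _)
      (b := ENNReal.ofReal (Real.pi * (2 * r) ^ 2))
    rcases le_total (2 * r) (n : ℝ) with h | h
    · exact (nu_big hJ g hg c r hr hS x hx n h).le
    · rw [← nu_big hJ g hg c r hr hS x hx (2 * r) le_rfl]
      exact measure_mono (Iic_subset_Iic.mpr h)
  refine Measure.ext_of_Iic _ _ (fun a => ?_)
  rcases lt_or_ge a 0 with h | h
  · rw [nu_neg g x a h, lam_neg r a h]
  · rcases le_total a (2 * r) with h2 | h2
    · rw [nu_Iic hJ g hg c r hr hS x hx a h h2, lam_Iic r a h h2]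
    · rw [nu_big hJ g hg c r hr hS x hx a h2, lam_big r hr a h2]

theorem bound (r : ℝ) (hr : 0 < r) :
    ∫⁻ ρ, ENNReal.ofReal |1 / (8 * Real.pi * r * ρ) - 3 / (20 * Real.pi * r ^ 2)
      + ρ ^ 2 / (40 * Real.pi * r ^ 4)| ∂(lam r) ≤ ENNReal.ofReal (13 / 80) := by
  have hpi := Real.pi_pos
  unfold lam
  rw [lintegral_withDensity_eq_lintegral_mul _ (by fun_prop) (by fun_prop)]
  have hsplit : Icc (0 : ℝ) (2 * r) = Icc 0 r ∪ Ioc r (2 * r) :=
    (Icc_union_Ioc_eq_Icc hr.le (by linarith)).symm
  rw [hsplit]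
  refine (lintegral_union_le _ _ _).trans ?_
  have h1 : ∫⁻ ρ in Icc 0 r, ((fun ρ => ENNReal.ofReal (2 * Real.pi * ρ)) *
      fun ρ => ENNReal.ofReal |1 / (8 * Real.pi * r * ρ) - 3 / (20 * Real.pi * r ^ 2)
      + ρ ^ 2 / (40 * Real.pi * r ^ 4)|) ρ ≤ ENNReal.ofReal (9 / 80) := by
    calc _ ≤ ∫⁻ ρ in Icc 0 r, ENNReal.ofReal (1 / (4 * r) - 3 * ρ / (10 * r ^ 2) +
          ρ ^ 3 / (20 * r ^ 4)) := by
          refine setLIntegral_mono_ae' measurableSet_Icc (Eventually.of_forall (fun ρ hρ => ?_))
          simp only [Pi.mul_apply]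
          rw [← ENNReal.ofReal_mul (by have := hρ.1; positivity)]
          apply ENNReal.ofReal_le_ofReal
          rcases eq_or_lt_of_le hρ.1 with h0 | h0
          · rw [← h0]
            simp only [mul_zero, zero_mul]
            simp
            positivity
          · have hb : 0 ≤ 1 / (8 * Real.pi * r * ρ) - 3 / (20 * Real.pi * r ^ 2)
                + ρ ^ 2 / (40 * Real.pi * r ^ 4) := by
              have e : 1 / (8 * Real.pi * r * ρ) - 3 / (20 * Real.pi * r ^ 2)
                + ρ ^ 2 / (40 * Real.pi * r ^ 4) =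
                  (r - ρ) * (5 * r ^ 2 - r * ρ - ρ ^ 2) / (40 * Real.pi * r ^ 4 * ρ) := by
                field_simp
                ring
              rw [e]
              have h2 : ρ ≤ r := hρ.2
              have h3 : 0 ≤ r - ρ := by linarith
              have h4 : 0 ≤ 5 * r ^ 2 - r * ρ - ρ ^ 2 := by nlinarith
              positivity
            rw [abs_of_nonneg hb]
            apply le_of_eq
            field_simp
            ring
      _ = ENNReal.ofReal (∫ ρ in Icc 0 r, (1 / (4 * r) - 3 * ρ / (10 * r ^ 2) +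
          ρ ^ 3 / (20 * r ^ 4))) := by
          rw [← ofReal_integral_eq_lintegral_ofReal]
          · exact Continuous.integrableOn_Icc (by fun_prop)
          · filter_upwards [ae_restrict_mem measurableSet_Icc] with t ht
            simp only [Pi.zero_apply]
            have e : 1 / (4 * r) - 3 * t / (10 * r ^ 2) + t ^ 3 / (20 * r ^ 4) =
              (r - t) * (5 * r ^ 2 - r * t - t ^ 2) / (20 * r ^ 4) := by
              field_simp
              ring
            rw [e]
            have h2 : t ≤ r := ht.2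
            have h1 : 0 ≤ t := ht.1
            have h3 : 0 ≤ r - t := by linarith
            have h4 : 0 ≤ 5 * r ^ 2 - r * t - t ^ 2 := by nlinarith
            positivity
      _ = ENNReal.ofReal (9 / 80) := by
          congr 1
          rw [integral_Icc_eq_integral_Ioc, ← intervalIntegral.integral_of_le hr.le]
          have e : ∀ t : ℝ, 1 / (4 * r) - 3 * t / (10 * r ^ 2) + t ^ 3 / (20 * r ^ 4) =
            1 / (4 * r) - 3 / (10 * r ^ 2) * t + 1 / (20 * r ^ 4) * t ^ 3 := by
            intro t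
            ring
          simp_rw [e]
          rw [intervalIntegral.integral_add, intervalIntegral.integral_sub,
            intervalIntegral.integral_const, intervalIntegral.integral_const_mul,
            intervalIntegral.integral_const_mul, integral_id, integral_pow]
          · simp only [smul_eq_mul]
            field_simp
            ring
          all_goals exact Continuous.intervalIntegrable (by fun_prop) _ _
  have h2 : ∫⁻ ρ in Ioc r (2 * r), ((fun ρ => ENNReal.ofReal (2 * Real.pi * ρ)) *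
      fun ρ => ENNReal.ofReal |1 / (8 * Real.pi * r * ρ) - 3 / (20 * Real.pi * r ^ 2)
      + ρ ^ 2 / (40 * Real.pi * r ^ 4)|) ρ ≤ ENNReal.ofReal (4 / 80) := by
    calc _ ≤ ∫⁻ ρ in Ioc r (2 * r), ENNReal.ofReal (1 / (20 * r)) := by
          refine setLIntegral_mono_ae' measurableSet_Ioc (Eventually.of_forall (fun ρ hρ => ?_))
          have h0 : 0 < ρ := hr.trans hρ.1
          have h1 : r < ρ := hρ.1
          have h2 : ρ ≤ 2 * r := hρ.2
          simp only [Pi.mul_apply]
          rw [← ENNReal.ofReal_mul (by positivity)]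
          apply ENNReal.ofReal_le_ofReal
          have e : 1 / (8 * Real.pi * r * ρ) - 3 / (20 * Real.pi * r ^ 2)
              + ρ ^ 2 / (40 * Real.pi * r ^ 4) =
                ((r - ρ) * (5 * r ^ 2 - r * ρ - ρ ^ 2)) / (40 * Real.pi * r ^ 4 * ρ) := by
            field_simp
            ring
          rw [e, abs_div, abs_of_pos (show 0 < 40 * Real.pi * r ^ 4 * ρ by positivity)]
          have e2 : 2 * Real.pi * ρ * (|(r - ρ) * (5 * r ^ 2 - r * ρ - ρ ^ 2)| /
              (40 * Real.pi * r ^ 4 * ρ)) =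
              |(r - ρ) * (5 * r ^ 2 - r * ρ - ρ ^ 2)| / (20 * r ^ 4) := by
            field_simp
            ring
          rw [e2, div_le_div_iff₀ (by positivity) (by positivity)]
          have h3 : |(r - ρ) * (5 * r ^ 2 - r * ρ - ρ ^ 2)| ≤ r ^ 3 := by
            rw [abs_le]
            constructor
            · nlinarith [mul_pos hr h0, mul_nonneg (sub_nonneg.mpr h1.le) (sub_nonneg.mpr h2),
                mul_nonneg (mul_nonneg (sub_nonneg.mpr h1.le) (sub_nonneg.mpr h2)) h0.le,
                mul_nonneg (mul_nonneg (sub_nonneg.mpr h1.le) (sub_nonneg.mpr h2)) hr.le,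
                mul_nonneg (sub_nonneg.mpr h1.le) (sq_nonneg (ρ - 2 * r)),
                mul_nonneg hr.le (sq_nonneg (ρ - r)), mul_nonneg h0.le (sq_nonneg (ρ - r))]
            · nlinarith [mul_pos hr h0, mul_nonneg (sub_nonneg.mpr h1.le) (sub_nonneg.mpr h2),
                mul_nonneg (mul_nonneg (sub_nonneg.mpr h1.le) (sub_nonneg.mpr h2)) h0.le,
                mul_nonneg (mul_nonneg (sub_nonneg.mpr h1.le) (sub_nonneg.mpr h2)) hr.le]
          calc |(r - ρ) * (5 * r ^ 2 - r * ρ - ρ ^ 2)| * (20 * r) ≤ r ^ 3 * (20 * r) :=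
                mul_le_mul_of_nonneg_right h3 (by positivity)
            _ = 1 * (20 * r ^ 4) := by ring
      _ = ENNReal.ofReal (4 / 80) := by
          rw [setLIntegral_const, Real.volume_Ioc, ← ENNReal.ofReal_mul (by positivity)]
          congr 1
          field_simp
          ring
  calc _ ≤ ENNReal.ofReal (9 / 80) + ENNReal.ofReal (4 / 80) := add_le_add h1 h2
    _ = ENNReal.ofReal (13 / 80) := by
        rw [← ENNReal.ofReal_add (by norm_num) (by norm_num)]
        norm_num

theorem t : TaskJ2 := by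
  intro hJ g hg c r hr hS x hx
  have hm : Measurable (fun y : E => ‖x - y‖) := by fun_prop
  have h := bound r hr
  rw [← nu_eq hJ g hg c r hr hS x hx, lintegral_map (by fun_prop) hm] at h
  exact h

end Pool.Agent.H934R3.NP.J2
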